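import Pool.Agent.H31.LE.Rel
import Pool.Agent.H95.LE.XiZW

/-!
PROJECT LE (MP_0d9ad5_pr, note 2738), block F3 (bootstrap, owner helper31). JOB F3-Zero. Values at `p = 0`.
PROOF. `tau d 0 x = 0` for `x ≠ 0` by `tau_stepW` (`ofReal 0 = 0`); `gw_zero`. So `gw w 0` is the indicator of `0`, `cv` of it with itself is
itself.
-/

namespace H31LE

open H5DF H95LBD H95LE MeasureTheory

variable {d : ℕ}

lemma Zero_tau (x : V d) (hx : x ≠ 0) : tau d 0 x = 0 := by
  have h := tau_stepW (d := d) 0 le_rfl zero_le_one x hx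
  have h2 : jc 0 (tau d 0) x = 0 := by
    unfold jc
    simp
  rw [h2] at h
  exact le_antisymm h zero_le

open Classical in
lemma Zero_gw {w : V d → ℕ} {c : ℕ} (hw : Wt w c) (x : V d) :
    gw w 0 x = if x = 0 then 1 else 0 := by
  by_cases h : x = 0
  · rw [if_pos h, h]
    exact gw_zero hw 0 le_rfl zero_le_one
  · rw [if_neg h]
    unfold gw
    rw [Zero_tau x h, mul_zero]

lemma Zero_cv {w : V d → ℕ} {c : ℕ} (hw : Wt w c) (h : V d → ENNReal) : cv (gw w 0) h = h := by
  classical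
  funext x
  unfold cv
  rw [tsum_eq_single (0 : V d)]
  · rw [Zero_gw hw, if_pos rfl, one_mul, sub_zero]
  · intro y hy
    rw [Zero_gw hw, if_neg hy, zero_mul]

theorem sq_zero {w : V d → ℕ} {c : ℕ} (hw : Wt w c) : H95LE.sq (gw w 0) = 1 := by
  classical
  unfold H95LE.sq
  rw [Zero_cv hw, Zero_cv hw, Zero_cv hw, Zero_gw hw, if_pos rfl]

theorem jg_zero (g : V d → ENNReal) (x : V d) : jg 0 g x = 0 := by
  unfold jg jc
  simp

end H31LE
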