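import Pool.Agent.H31.LE.Unif
import Pool.Agent.H31.LE.Zero

/-!
PROJECT LE (MP_0d9ad5_pr, note 2738), block F3 (bootstrap, owner helper31). JOB F3-Boot. The bootstrap.
PROOF. Fix `p ≤ p1 < pc`, `N = ∑ gw w p1`. Choose `ε` with `4 ε N^3 ≤ K / 2`, `2 d * 3 ε N^2 ≤ b / 4`, and `η` from `unif`, also
`2 d η N^3 ≤ b / 4`. Then `Q p` and `p ≤ q ≤ min (p + η) p1` imply `Q q` (`rl_sq`, `rl_jg`, `q ≤ 1`). Induction on `n` for `q ≤ n η`; start:
`sq_zero`, `jg_zero`, `1 ≤ K / 2`.
-/

namespace H31LE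

open H5DF H95LBD H95LE MeasureTheory

variable {d : ℕ}

/-- Stepwise induction on `[0, p1]`. -/
lemma boot_step (P : ℝ → Prop) {p1 η : ℝ} (hη : 0 < η) (h0 : P 0)
    (hs : ∀ p q : ℝ, 0 ≤ p → p ≤ q → q ≤ p1 → q ≤ p + η → P p → P q) :
    ∀ q : ℝ, 0 ≤ q → q ≤ p1 → P q := by
  have key : ∀ n : ℕ, ∀ q : ℝ, 0 ≤ q → q ≤ p1 → q ≤ n * η → P q := by
    intro n
    induction n with
    | zero =>
      intro q hq0 _ hq
      rw [Nat.cast_zero, zero_mul] at hq
      rw [le_antisymm hq hq0]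
      exact h0
    | succ n ih =>
      intro q hq0 hq1 hq
      rw [Nat.cast_succ, add_mul, one_mul] at hq
      have h1 : max 0 (q - η) ≤ q := max_le hq0 (by linarith)
      have h2 : 0 ≤ (n : ℝ) * η := by positivity
      refine hs (max 0 (q - η)) q (le_max_left _ _) h1 hq1 ?_ ?_
      · linarith [le_max_right 0 (q - η)]
      · exact ih _ (le_max_left _ _) (h1.trans hq1) (max_le h2 (by linarith))
  intro q hq0 hq1
  obtain ⟨n, hn⟩ := exists_nat_ge (q / η)
  refine key n q hq0 hq1 ?_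
  rwa [div_le_iff₀ hη] at hn

theorem boot {pc : ℝ} (hM : Mn d pc) {w : V d → ℕ} {c : ℕ} (hw : Wt w c)
    (hfin : ∀ p : ℝ, 0 ≤ p → p < pc → ∑' x, gw w p x ≠ ⊤) (K b : ℝ) (hK : 2 ≤ K) (hb : 0 < b)
    (himp : ∀ p : ℝ, 0 ≤ p → p < pc → H95LE.sq (gw w p) ≤ ENNReal.ofReal K →
      (∀ x, jg p (gw w p) x ≤ ENNReal.ofReal b) → H95LE.sq (gw w p) ≤ ENNReal.ofReal (K / 2) ∧
        ∀ x, jg p (gw w p) x ≤ ENNReal.ofReal (b / 2)) :
    ∀ p : ℝ, 0 ≤ p → p < pc → H95LE.sq (gw w p) ≤ ENNReal.ofReal (K / 2) ∧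
      ∀ x, jg p (gw w p) x ≤ ENNReal.ofReal (b / 2) := by
  intro p1 hp0 hp1
  set N : ENNReal := ∑' x, gw w p1 x with hN
  have hNf : N ≠ ⊤ := hfin p1 hp0 hp1
  set M : ℝ := N.toReal + 1 with hM'
  have hM1 : 1 ≤ M := by
    have : 0 ≤ N.toReal := ENNReal.toReal_nonneg
    linarith
  have hM0 : 0 < M := by linarith
  have hNM : N ≤ ENNReal.ofReal M := by
    rw [← ENNReal.ofReal_toReal hNf]
    exact ENNReal.ofReal_le_ofReal (by linarith)
  have hd : (0 : ℝ) < (d : ℝ) + 1 := by positivity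
  set ε : ℝ := min (K / (8 * M ^ 3)) (b / (24 * ((d : ℝ) + 1) * M ^ 2)) with hε
  have hε0 : 0 < ε := lt_min (by positivity) (by positivity)
  obtain ⟨η0, hη0, hη⟩ := unif hM w hp1 hNf hp0 ε hε0
  set η : ℝ := min η0 (b / (8 * ((d : ℝ) + 1) * M ^ 3)) with hηd
  have hηp : 0 < η := lt_min hη0 (by positivity)
  have b1 : 4 * ε * M ^ 3 ≤ K / 2 := by
    have h : ε ≤ K / (8 * M ^ 3) := min_le_left _ _
    rw [le_div_iff₀ (by positivity)] at h
    linarith
  have b2 : 2 * (d : ℝ) * (3 * ε * M ^ 2) ≤ b / 4 := by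
    have h : ε ≤ b / (24 * ((d : ℝ) + 1) * M ^ 2) := min_le_right _ _
    rw [le_div_iff₀ (by positivity)] at h
    have h2 : 0 ≤ ε * M ^ 2 := by positivity
    nlinarith
  have b3 : 2 * (d : ℝ) * (η * M ^ 3) ≤ b / 4 := by
    have h : η ≤ b / (8 * ((d : ℝ) + 1) * M ^ 3) := min_le_right _ _
    rw [le_div_iff₀ (by positivity)] at h
    have h2 : 0 ≤ η * M ^ 3 := by positivity
    nlinarith
  have hQ : ∀ q : ℝ, 0 ≤ q → q ≤ p1 → (H95LE.sq (gw w q) ≤ ENNReal.ofReal K ∧
      ∀ x, jg q (gw w q) x ≤ ENNReal.ofReal b) := by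
    refine boot_step _ hηp ?_ ?_
    · refine ⟨?_, fun x => ?_⟩
      · rw [sq_zero hw]
        rw [← ENNReal.ofReal_one]
        exact ENNReal.ofReal_le_ofReal (by linarith)
      · rw [jg_zero]
        exact bot_le
    · intro p q hp0' hpq hq1 hqη hP
      have hppc : p < pc := lt_of_le_of_lt (hpq.trans hq1) hp1
      obtain ⟨c1, c2⟩ := himp p hp0' hppc hP.1 hP.2
      have hηη : η ≤ η0 := min_le_left _ _
      have H := hη p q hp0' hpq hq1 (hqη.trans (by linarith))
      have hq01 : q ≤ 1 := (hq1.trans hp1.le).trans hM.le_one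
      have hq0 : 0 ≤ q := hp0'.trans hpq
      refine ⟨(rl_sq H).trans ?_, fun x => (rl_jg hp0' hpq H x).trans ?_⟩
      · have e1 : 4 * ENNReal.ofReal ε * N ^ 3 ≤ ENNReal.ofReal (K / 2) := by
          calc 4 * ENNReal.ofReal ε * N ^ 3
              ≤ ENNReal.ofReal 4 * ENNReal.ofReal ε * ENNReal.ofReal M ^ 3 := by
                rw [ENNReal.ofReal_ofNat]
                gcongr
            _ = ENNReal.ofReal (4 * ε * M ^ 3) := by
                rw [← ENNReal.ofReal_pow hM0.le, ← ENNReal.ofReal_mul (by norm_num),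
                  ← ENNReal.ofReal_mul (by positivity)]
            _ ≤ _ := ENNReal.ofReal_le_ofReal b1
        calc _ ≤ ENNReal.ofReal (K / 2) + ENNReal.ofReal (K / 2) := add_le_add c1 e1
          _ = ENNReal.ofReal K := by
            rw [← ENNReal.ofReal_add (by linarith) (by linarith)]
            congr 1
            ring
      · have e1 : 2 * (d : ENNReal) * (ENNReal.ofReal q * (3 * ENNReal.ofReal ε * N ^ 2) +
            ENNReal.ofReal (q - p) * N ^ 3) ≤ ENNReal.ofReal (b / 2) := by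
          calc 2 * (d : ENNReal) * (ENNReal.ofReal q * (3 * ENNReal.ofReal ε * N ^ 2) +
                ENNReal.ofReal (q - p) * N ^ 3)
              ≤ ENNReal.ofReal 2 * ENNReal.ofReal (d : ℝ) * (ENNReal.ofReal 1 *
                (ENNReal.ofReal 3 * ENNReal.ofReal ε * ENNReal.ofReal M ^ 2) +
                ENNReal.ofReal η * ENNReal.ofReal M ^ 3) := by
                rw [ENNReal.ofReal_ofNat, ENNReal.ofReal_ofNat, ENNReal.ofReal_natCast]
                gcongr
                linarith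
            _ = ENNReal.ofReal (2 * (d : ℝ) * (1 * (3 * ε * M ^ 2) + η * M ^ 3)) := by
                rw [← ENNReal.ofReal_pow hM0.le, ← ENNReal.ofReal_pow hM0.le,
                  ← ENNReal.ofReal_mul (by norm_num), ← ENNReal.ofReal_mul (by norm_num),
                  ← ENNReal.ofReal_mul (by positivity), ← ENNReal.ofReal_mul (by norm_num),
                  ← ENNReal.ofReal_mul hηp.le, ← ENNReal.ofReal_add (by positivity) (by positivity),
                  ← ENNReal.ofReal_mul (by positivity)]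
            _ ≤ _ := ENNReal.ofReal_le_ofReal (by linarith)
        calc _ ≤ ENNReal.ofReal (b / 2) + ENNReal.ofReal (b / 2) := add_le_add (c2 x) e1
          _ = ENNReal.ofReal b := by
            rw [← ENNReal.ofReal_add (by linarith) (by linarith)]
            congr 1
            ring
  obtain ⟨a1, a2⟩ := hQ p1 hp0 le_rfl
  exact himp p1 hp0 hp1 a1 a2

end H31LE
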