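import Pool.Agent.H31.LE.Boot
import Pool.Agent.H95.LE.Lace
import Pool.Agent.H15.LE.Fin
import Pool.Agent.H29.SH.Cont

/-!
PROJECT LE (MP_0d9ad5_pr, note 2738), block F3 (bootstrap, owner helper31). JOB F3-Crit. The estimates for all `p < pcc d`, weight `w2`.
PROOF. `boot` with `w = w2`, `K = K0` of `four_one`, `b = min b0 (min (1 / (256 K0)) (1 / (12 (1 + 512 K0^3))))`; `lace` gives the inputs
`Inp` of the Fourier block.
-/

namespace H31LE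

open H5DF H95LBD H95LE MeasureTheory

variable {d : ℕ}

lemma w2_wt : Wt (w2 (d := d)) 2 := by
  refine ⟨by simp [w2], w2_neg, fun s => (w2_step s).le, w2_add, PrDef_one_le⟩

lemma mn_pcc (hd : 1 ≤ d) : Mn d (SH.pcc d) :=
  ⟨SH.pcc_le_one hd, fun x _ _ h0 hpq hq => SH.tau_mono h0 hpq (hq.le.trans (SH.pcc_le_one hd)) x,
    fun x => SH.tau_cont hd x⟩

theorem crit_w2 : ∃ K0 : ℝ, 2 ≤ K0 ∧ ∀ b0 : ℝ, 0 < b0 → ∃ d0 : ℕ, ∀ d, d0 ≤ d → ∀ p : ℝ, 0 ≤ p →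
    p < SH.pcc d → g4 d p ≤ ENNReal.ofReal K0 ∧ (∀ x, jggg d p x ≤ ENNReal.ofReal b0) ∧
      2 * d * p ≤ 12 / 11 ∧ ∑' x, gt d p x ≤ ENNReal.ofReal 3 * (∑' x, tau d p x) ^ 2 ∧
      ∃ X : V d → ℝ, H15LE.Inp d p X := by
  obtain ⟨K0, hK0, hF⟩ := H15LE.four_one
  refine ⟨K0, hK0, fun b0 hb0 => ?_⟩
  set b : ℝ := min b0 (min (1 / (256 * K0)) (1 / (12 * (1 + 512 * K0 ^ 3)))) with hb
  have hK00 : 0 < K0 := by linarith
  have hb1 : 0 < b := lt_min hb0 (lt_min (by positivity) (by positivity))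
  have hb2 : b ≤ b0 := min_le_left _ _
  have hb3 : 256 * K0 * b ≤ 1 := by
    have h : b ≤ 1 / (256 * K0) := (min_le_right _ _).trans (min_le_left _ _)
    rw [le_div_iff₀ (by positivity)] at h
    linarith
  have hb4 : (1 + 512 * K0 ^ 3) * b ≤ 1 / 12 := by
    have h : b ≤ 1 / (12 * (1 + 512 * K0 ^ 3)) := (min_le_right _ _).trans (min_le_right _ _)
    rw [le_div_iff₀ (by positivity)] at h
    linarith
  obtain ⟨d0, hd0⟩ := hF b hb1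
  refine ⟨max 1 d0, fun d hd p hp0 hp1 => ?_⟩
  have hd1 : 1 ≤ d := (le_max_left _ _).trans hd
  have hd2 : d0 ≤ d := (le_max_right _ _).trans hd
  have hfin : ∀ q : ℝ, 0 ≤ q → q < SH.pcc d → ∑' x : V d, gt d q x ≠ ⊤ :=
    fun q h0 h1 => (SH.gt_fin hd1 h0 h1).ne
  have hX : ∀ q : ℝ, 0 ≤ q → q < SH.pcc d → g4 d q ≤ ENNReal.ofReal K0 →
      (∀ x, jggg d q x ≤ ENNReal.ofReal b) → ∃ X : V d → ℝ, H15LE.Inp d q X := by
    intro q h0 h1 hg hj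
    have hq1 : q ≤ 1 := h1.le.trans (SH.pcc_le_one hd1)
    obtain ⟨X, hX1, hX2, hX3⟩ := lace q h0 hq1 (hfin q h0 h1) K0 b hK00.le hb1.le hg hj hb3
    exact ⟨X, ⟨hd1, h0, hq1, hfin q h0 h1, hX1, hX2.trans hb4, hX3⟩⟩
  have hboot := boot (mn_pcc hd1) (w2_wt (d := d)) (fun q h0 h1 => hfin q h0 h1) K0 b hK0 hb1
    (fun q h0 h1 hg hj => by
      obtain ⟨X, hXq⟩ := hX q h0 h1 hg hj
      exact hd0 d hd2 q X hXq) p hp0 hp1
  have hg : g4 d p ≤ ENNReal.ofReal K0 :=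
    hboot.1.trans (ENNReal.ofReal_le_ofReal (by linarith))
  have hj : ∀ x, jggg d p x ≤ ENNReal.ofReal b :=
    fun x => (hboot.2 x).trans (ENNReal.ofReal_le_ofReal (by linarith))
  obtain ⟨X, hXp⟩ := hX p hp0 hp1 hg hj
  obtain ⟨h2, h3⟩ := H15LE.four_two hXp
  exact ⟨hg, fun x => (hj x).trans (ENNReal.ofReal_le_ofReal hb2), h2, h3, X, hXp⟩

end H31LE
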