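import Pool.Agent.H95.LE.WtDef

/-!
PROJECT LE (MP_0d9ad5_pr, note 2738), block F3 (bootstrap, owner helper31). JOB F3-Rel (helper60). Quantitative continuity of
convolutions in `l^1`.
PROOF. `rl_cv`: `cv f' k' ≤ cv (f + δ) k' = cv f k' + cv δ k' ≤ cv f k + cv f δ' + cv δ k'`, mass of a convolution = product of
the masses (`rel_mass`: `ENNReal.tsum_comm`, `ENNReal.tsum_mul_left`, `Equiv.subRight`); `∑ f ≤ ∑ f' ≤ N`. `rl_jc`: the same with
`ofReal q = ofReal p + ofReal (q - p)` and `card (Dir d) = 2 d`. `rl_sq`, `rl_jg`: iterate and use `δ x ≤ ∑ δ`.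
-/

namespace H31LE

open H5DF H95LBD H95LE MeasureTheory

variable {d : ℕ}

/-- `F ≤ F'`, the mass of the difference is at most `D`, the mass of `F'` is at most `N`. -/
def Rl (F F' : V d → ENNReal) (D N : ENNReal) : Prop :=
  (∀ x, F x ≤ F' x) ∧ (∃ δ : V d → ENNReal, (∀ x, F' x ≤ F x + δ x) ∧ ∑' x, δ x ≤ D) ∧
    ∑' x, F' x ≤ N

lemma rel_mass (f h : V d → ENNReal) : ∑' x, cv f h x = (∑' x, f x) * ∑' x, h x := by
  unfold cv
  rw [ENNReal.tsum_comm, ← ENNReal.tsum_mul_right]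
  refine tsum_congr fun y => ?_
  rw [ENNReal.tsum_mul_left]
  congr 1
  exact (Equiv.subRight y).tsum_eq h

lemma Rel_card : (Finset.univ : Finset (Dir d)).card = 2 * d := by
  rw [Finset.card_univ]
  unfold Dir
  simp [Fintype.card_prod, mul_comm]

lemma rel_mass_jc (p : ℝ) (f : V d → ENNReal) :
    ∑' x, jc p f x = 2 * (d : ENNReal) * (ENNReal.ofReal p * ∑' x, f x) := by
  unfold jc
  rw [Summable.tsum_finsetSum fun _ _ => ENNReal.summable]
  have h : ∀ s ∈ (Finset.univ : Finset (Dir d)),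
      ∑' x, ENNReal.ofReal p * f (x - step s) = ENNReal.ofReal p * ∑' x, f x := by
    intro s _
    rw [ENNReal.tsum_mul_left]
    congr 1
    exact (Equiv.subRight (step s)).tsum_eq f
  rw [Finset.sum_congr rfl h, Finset.sum_const, Rel_card, nsmul_eq_mul]
  push_cast
  rfl

lemma Rel_cv_add_left (f g h : V d → ENNReal) (x : V d) :
    cv (fun y => f y + g y) h x = cv f h x + cv g h x := by
  unfold cv
  rw [← ENNReal.tsum_add]
  exact tsum_congr fun y => add_mul _ _ _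

lemma Rel_cv_add_right (f g h : V d → ENNReal) (x : V d) :
    cv f (fun y => g y + h y) x = cv f g x + cv f h x := by
  unfold cv
  rw [← ENNReal.tsum_add]
  exact tsum_congr fun y => mul_add _ _ _

lemma rl_cv {f f' h h' : V d → ENNReal} {D N D' N' : ENNReal} (H : Rl f f' D N)
    (H' : Rl h h' D' N') : Rl (cv f h) (cv f' h') (N * D' + D * N') (N * N') := by
  obtain ⟨H1, ⟨δ, H2, H3⟩, H4⟩ := H
  obtain ⟨H1', ⟨δ', H2', H3'⟩, H4'⟩ := H'
  have hf : ∑' x, f x ≤ N := (ENNReal.tsum_le_tsum H1).trans H4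
  refine ⟨fun x => cv_mono H1 H1' x, ⟨fun x => cv f δ' x + cv δ h' x, fun x => ?_, ?_⟩, ?_⟩
  · calc cv f' h' x ≤ cv (fun y => f y + δ y) h' x := cv_mono H2 (fun _ => le_rfl) x
      _ = cv f h' x + cv δ h' x := Rel_cv_add_left _ _ _ _
      _ ≤ cv f (fun y => h y + δ' y) x + cv δ h' x :=
          add_le_add (cv_mono (fun _ => le_rfl) H2' x) le_rfl
      _ = cv f h x + (cv f δ' x + cv δ h' x) := by rw [Rel_cv_add_right, add_assoc]
  · rw [ENNReal.tsum_add, rel_mass, rel_mass]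
    exact add_le_add (mul_le_mul' hf H3') (mul_le_mul' H3 H4')
  · rw [rel_mass]
    exact mul_le_mul' H4 H4'

lemma rl_jc {f f' : V d → ENNReal} {D N : ENNReal} {p q : ℝ} (h0 : 0 ≤ p) (hpq : p ≤ q)
    (H : Rl f f' D N) : Rl (jc p f) (jc q f')
      (2 * (d : ENNReal) * (ENNReal.ofReal q * D + ENNReal.ofReal (q - p) * N))
      (2 * (d : ENNReal) * (ENNReal.ofReal q * N)) := by
  obtain ⟨H1, ⟨δ, H2, H3⟩, H4⟩ := H
  have hf : ∑' x, f x ≤ N := (ENNReal.tsum_le_tsum H1).trans H4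
  have hpq' : ENNReal.ofReal p ≤ ENNReal.ofReal q := ENNReal.ofReal_le_ofReal hpq
  have hsplit : ENNReal.ofReal q = ENNReal.ofReal p + ENNReal.ofReal (q - p) := by
    rw [← ENNReal.ofReal_add h0 (by linarith)]
    congr 1
    ring
  refine ⟨fun x => ?_, ⟨fun x => jc q δ x + jc (q - p) f x, fun x => ?_, ?_⟩, ?_⟩
  · unfold jc
    exact Finset.sum_le_sum fun s _ => mul_le_mul' hpq' (H1 _)
  · unfold jc
    beta_reduce
    rw [← Finset.sum_add_distrib, ← Finset.sum_add_distrib]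
    refine Finset.sum_le_sum fun s _ => ?_
    calc ENNReal.ofReal q * f' (x - step s)
        ≤ ENNReal.ofReal q * (f (x - step s) + δ (x - step s)) := mul_le_mul' le_rfl (H2 _)
      _ = ENNReal.ofReal q * f (x - step s) + ENNReal.ofReal q * δ (x - step s) := mul_add _ _ _
      _ = (ENNReal.ofReal p * f (x - step s) + ENNReal.ofReal (q - p) * f (x - step s)) +
            ENNReal.ofReal q * δ (x - step s) := by
          rw [← add_mul, ← hsplit]
      _ = ENNReal.ofReal p * f (x - step s) +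
            (ENNReal.ofReal q * δ (x - step s) + ENNReal.ofReal (q - p) * f (x - step s)) := by
          ring
      _ ≤ _ := le_rfl
  · rw [ENNReal.tsum_add, rel_mass_jc, rel_mass_jc, ← mul_add]
    exact mul_le_mul' le_rfl (add_le_add (mul_le_mul' le_rfl H3) (mul_le_mul' le_rfl hf))
  · rw [rel_mass_jc]
    exact mul_le_mul' le_rfl (mul_le_mul' le_rfl H4)

lemma Rel_le {F F' : V d → ENNReal} {D N : ENNReal} (H : Rl F F' D N) (x : V d) :
    F' x ≤ F x + D := by
  obtain ⟨_, ⟨δ, H2, H3⟩, _⟩ := H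
  exact (H2 x).trans (add_le_add le_rfl ((ENNReal.le_tsum x).trans H3))

lemma Rel_three {g g' : V d → ENNReal} {D N : ENNReal} (H : Rl g g' D N) :
    Rl (cv g (cv g g)) (cv g' (cv g' g')) (3 * D * N ^ 2) (N ^ 3) := by
  have h := rl_cv H (rl_cv H H)
  have e1 : N * (N * D + D * N) + D * (N * N) = 3 * D * N ^ 2 := by ring
  have e2 : N * (N * N) = N ^ 3 := by ring
  rwa [e1, e2] at h

theorem rl_sq {g g' : V d → ENNReal} {D N : ENNReal} (H : Rl g g' D N) :
    H95LE.sq g' ≤ H95LE.sq g + 4 * D * N ^ 3 := by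
  have h := rl_cv H (Rel_three H)
  have e1 : N * (3 * D * N ^ 2) + D * N ^ 3 = 4 * D * N ^ 3 := by ring
  rw [e1] at h
  exact Rel_le h 0

theorem rl_jg {g g' : V d → ENNReal} {D N : ENNReal} {p q : ℝ} (h0 : 0 ≤ p) (hpq : p ≤ q)
    (H : Rl g g' D N) (x : V d) : jg q g' x ≤ jg p g x +
      2 * (d : ENNReal) * (ENNReal.ofReal q * (3 * D * N ^ 2) + ENNReal.ofReal (q - p) * N ^ 3) :=
  Rel_le (rl_jc h0 hpq (Rel_three H)) x

end H31LE
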