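import Pool.Agent.H31.LE.Rel

/-!
PROJECT LE (MP_0d9ad5_pr, note 2738), block F3 (bootstrap, owner helper31). JOB F3-Unif. Uniform continuity in `p` of the
weighted two-point function in `l^1`, on `[0, p1]`.
PROOF. `G p := ∑' x, w x * (tau d p x).toReal` is continuous on `[0, p1]`: `continuousOn_tsum` (every term is continuous, dominated by
the term at `p1`, which is summable by `hfin`), so uniformly continuous (compact). For `p ≤ q` in `[0, p1]`: `δ x := gw w q x - gw w p x`,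
`∑ δ = ∑ gw w q - ∑ gw w p` (`ENNReal.tsum_sub`), and this is `ofReal (G q - G p) ≤ ofReal ε`.
-/

namespace H31LE

open H5DF H95LBD H95LE MeasureTheory

variable {d : ℕ}

/-- The properties of the two-point function on `[0, pc)` which the bootstrap uses. -/
structure Mn (d : ℕ) (pc : ℝ) : Prop where
  le_one : pc ≤ 1
  mono : ∀ x : V d, ∀ p q : ℝ, 0 ≤ p → p ≤ q → q < pc → tau d p x ≤ tau d q x
  cont : ∀ x : V d, ContinuousOn (fun p => (tau d p x).toReal) (Set.Ico 0 pc)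

lemma Unif_ne_top {p : ℝ} (h0 : 0 ≤ p) (h1 : p ≤ 1) (x : V d) : tau d p x ≠ ⊤ := by
  have := isProb_perc (d := d) p h0 h1
  exact measure_ne_top _ _

lemma Unif_gw {p : ℝ} (h0 : 0 ≤ p) (h1 : p ≤ 1) (w : V d → ℕ) (x : V d) :
    gw w p x = ENNReal.ofReal ((w x : ℝ) * (tau d p x).toReal) := by
  rw [ENNReal.ofReal_mul (Nat.cast_nonneg _), ENNReal.ofReal_natCast,
    ENNReal.ofReal_toReal (Unif_ne_top h0 h1 x)]
  rfl

lemma Unif_sum {p : ℝ} (h0 : 0 ≤ p) (h1 : p ≤ 1) (w : V d → ℕ)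
    (hs : Summable fun x : V d => (w x : ℝ) * (tau d p x).toReal) :
    ∑' x, gw w p x = ENNReal.ofReal (∑' x : V d, (w x : ℝ) * (tau d p x).toReal) := by
  rw [ENNReal.ofReal_tsum_of_nonneg
    (fun x => mul_nonneg (Nat.cast_nonneg _) ENNReal.toReal_nonneg) hs]
  exact tsum_congr fun x => Unif_gw h0 h1 w x

theorem unif {pc : ℝ} (hM : Mn d pc) (w : V d → ℕ) {p1 : ℝ} (hp1 : p1 < pc)
    (hfin : ∑' x, gw w p1 x ≠ ⊤) (h1 : 0 ≤ p1) (ε : ℝ) (hε : 0 < ε) : ∃ η : ℝ, 0 < η ∧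
      ∀ p q : ℝ, 0 ≤ p → p ≤ q → q ≤ p1 → q ≤ p + η →
        Rl (gw w p) (gw w q) (ENNReal.ofReal ε) (∑' x, gw w p1 x) := by
  have hp11 : p1 ≤ 1 := hp1.le.trans hM.le_one
  -- the dominating series
  have hs1 : Summable fun x : V d => (w x : ℝ) * (tau d p1 x).toReal := by
    have h := ENNReal.summable_toReal hfin
    refine h.congr fun x => ?_
    rw [Unif_gw h1 hp11, ENNReal.toReal_ofReal
      (mul_nonneg (Nat.cast_nonneg _) ENNReal.toReal_nonneg)]
  have hle : ∀ x : V d, ∀ p : ℝ, 0 ≤ p → p ≤ p1 →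
      (w x : ℝ) * (tau d p x).toReal ≤ (w x : ℝ) * (tau d p1 x).toReal := by
    intro x p hp0 hpp
    exact mul_le_mul_of_nonneg_left
      (ENNReal.toReal_mono (Unif_ne_top h1 hp11 x) (hM.mono x p p1 hp0 hpp hp1))
      (Nat.cast_nonneg _)
  have hnn : ∀ (x : V d) (p : ℝ), 0 ≤ (w x : ℝ) * (tau d p x).toReal := fun x p =>
    mul_nonneg (Nat.cast_nonneg _) ENNReal.toReal_nonneg
  have hsp : ∀ p : ℝ, 0 ≤ p → p ≤ p1 → Summable fun x : V d => (w x : ℝ) * (tau d p x).toReal :=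
    fun p hp0 hpp => Summable.of_nonneg_of_le (fun x => hnn x p) (fun x => hle x p hp0 hpp) hs1
  -- continuity
  have hc : ContinuousOn (fun p => ∑' x : V d, (w x : ℝ) * (tau d p x).toReal)
      (Set.Icc 0 p1) := by
    refine continuousOn_tsum (u := fun x : V d => (w x : ℝ) * (tau d p1 x).toReal) ?_ hs1 ?_
    · intro x
      exact ((hM.cont x).mono fun p hp => ⟨hp.1, hp.2.trans_lt hp1⟩).const_smul (w x : ℝ)
    · intro x p hp
      rw [Real.norm_of_nonneg (hnn x p)]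
      exact hle x p hp.1 hp.2
  have hu := isCompact_Icc.uniformContinuousOn_of_continuous hc
  rw [Metric.uniformContinuousOn_iff] at hu
  obtain ⟨δ, hδ, hd⟩ := hu ε hε
  refine ⟨δ / 2, half_pos hδ, ?_⟩
  intro p q hp0 hpq hq1 hqη
  have hpp1 : p ≤ p1 := hpq.trans hq1
  have hq0 : 0 ≤ q := hp0.trans hpq
  have hmn : ∀ x, gw w p x ≤ gw w q x := fun x =>
    mul_le_mul_right (hM.mono x p q hp0 hpq (hq1.trans_lt hp1)) _
  refine ⟨hmn, ⟨fun x => gw w q x - gw w p x, fun x => le_add_tsub, ?_⟩, ?_⟩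
  · have hdist := hd p ⟨hp0, hpp1⟩ q ⟨hq0, hq1⟩ (by
      rw [Real.dist_eq, abs_sub_comm, abs_of_nonneg (by linarith)]
      linarith)
    rw [Real.dist_eq, abs_sub_comm] at hdist
    have hdiff := (le_abs_self _).trans hdist.le
    have hsum : ∑' x, (gw w q x - gw w p x) + ∑' x, gw w p x = ∑' x, gw w q x := by
      rw [← ENNReal.tsum_add]
      exact tsum_congr fun x => tsub_add_cancel_of_le (hmn x)
    rw [Unif_sum hp0 (hpp1.trans hp11) w (hsp p hp0 hpp1),
      Unif_sum hq0 (hq1.trans hp11) w (hsp q hq0 hq1)] at hsum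
    have hfin2 : ENNReal.ofReal (∑' x : V d, (w x : ℝ) * (tau d p x).toReal) ≠ ⊤ :=
      ENNReal.ofReal_ne_top
    refine (ENNReal.add_le_add_iff_right hfin2).1 ?_
    rw [hsum, ← ENNReal.ofReal_add hε.le (tsum_nonneg fun x => hnn x p)]
    exact ENNReal.ofReal_le_ofReal (by linarith)
  · exact ENNReal.tsum_le_tsum fun x => mul_le_mul_right (hM.mono x q p1 hq0 hq1 hp1) _

end H31LE
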